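import Pool.Agent.Y388.HG.Third

/-!
# Fractional latin squares avoiding sparse list assignments

A fractional latin square is a nonnegative real array `g i j k` with all line sums `1`; it avoids
`L` if it vanishes at the forbidden places. The analogue of Haggkvist's constant for fractional
latin squares lies between `2/11` and `1/3`.
-/

namespace Pool.Agent.Results.MP_ba4857_co.FractionalLatinSquares

open Finset

/-- A list assignment for `K_{n,n}`: the edge that joins the left vertex `i` to the right vertex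
`j` gets the set `L i j` of forbidden colours, a subset of the `n` colours `Fin n`. -/
abbrev ListAssignment (n : ℕ) : Type := Fin n → Fin n → Finset (Fin n)

/-- All lists have size at most `m`, and every colour is forbidden on at most `m` edges at every
(left or right) vertex. -/
def BoundedBy {n : ℕ} (m : ℕ) (L : ListAssignment n) : Prop :=
  (∀ i j, (L i j).card ≤ m) ∧
  (∀ i c, (univ.filter fun j => c ∈ L i j).card ≤ m) ∧
  (∀ j c, (univ.filter fun i => c ∈ L i j).card ≤ m)

/-- `L` is `β`-sparse: `|L(e)| ≤ β n` for every edge `e`, and every colour is forbidden on at most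
`β n` edges at every (left or right) vertex. -/
def Sparse {n : ℕ} (β : ℝ) (L : ListAssignment n) : Prop :=
  (∀ i j, ((L i j).card : ℝ) ≤ β * n) ∧
  (∀ i c, ((univ.filter fun j => c ∈ L i j).card : ℝ) ≤ β * n) ∧
  (∀ j c, ((univ.filter fun i => c ∈ L i j).card : ℝ) ≤ β * n)

/-- `f` is a proper edge colouring of `K_{n,n}` with the colours `Fin n`: two edges sharing their
left end, or their right end, get different colours. -/
def Proper {n : ℕ} (f : Fin n → Fin n → Fin n) : Prop :=
  (∀ i j j', f i j = f i j' → j = j') ∧ (∀ j i i', f i j = f i' j → i = i')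

/-- `L` is avoidable: some proper `n`-edge colouring gives no edge a colour forbidden on it. -/
def Avoidable {n : ℕ} (L : ListAssignment n) : Prop :=
  ∃ f : Fin n → Fin n → Fin n, Proper f ∧ ∀ i j, f i j ∉ L i j

/-- The array `g` has all line sums equal to `1` and vanishes at all forbidden places of `L`. -/
def Avoids {n : ℕ} {R : Type} [Semiring R] (L : ListAssignment n)
    (g : Fin n → Fin n → Fin n → R) : Prop :=
  (∀ i j, ∑ k, g i j k = 1) ∧ (∀ i k, ∑ j, g i j k = 1) ∧ (∀ j k, ∑ i, g i j k = 1) ∧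
    ∀ i j, ∀ k ∈ L i j, g i j k = 0

/-- Fractional relaxation of avoidability: some fractional latin square (nonnegative real entries)
avoids `L`. -/
def FracAvoidable {n : ℕ} (L : ListAssignment n) : Prop :=
  ∃ g : Fin n → Fin n → Fin n → ℝ, (∀ i j k, 0 ≤ g i j k) ∧ Avoids L g

/-- Haggkvist's constant: the supremum of all `β ≥ 0` such that for every `n ≥ 1` every
`β`-sparse list assignment for `K_{n,n}` is avoidable. -/
noncomputable def betaStar : ℝ :=
  sSup {β : ℝ | 0 ≤ β ∧ ∀ n : ℕ, 1 ≤ n → ∀ L : ListAssignment n, Sparse β L → Avoidable L}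

/-- The same with fractional latin squares instead of proper edge colourings. -/
noncomputable def betaFrac : ℝ :=
  sSup {β : ℝ | 0 ≤ β ∧ ∀ n : ℕ, 1 ≤ n → ∀ L : ListAssignment n, Sparse β L → FracAvoidable L}

theorem ind_avoids {n : ℕ} {R : Type} [Semiring R] {L : ListAssignment n}
    {f : Fin n → Fin n → Fin n} (hf : Proper f) (hL : ∀ i j, f i j ∉ L i j) :
    Avoids L (fun i j k => if f i j = k then (1 : R) else 0) := by
  refine ⟨fun i j => by simp, fun i k => ?_, fun j k => ?_, fun i j k hk => ?_⟩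
  · have hb : Function.Surjective (f i) :=
      Finite.injective_iff_surjective.mp (fun j j' h => hf.1 i j j' h)
    obtain ⟨j0, hj0⟩ := hb k
    rw [Finset.sum_eq_single j0]
    · simp [hj0]
    · intro b _ hb
      exact if_neg fun h => hb (hf.1 i b j0 (h.trans hj0.symm))
    · intro h; exact absurd (mem_univ _) h
  · have hb : Function.Surjective (fun i => f i j) :=
      Finite.injective_iff_surjective.mp (fun i i' h => hf.2 j i i' h)
    obtain ⟨i0, hi0⟩ := hb k
    simp only at hi0
    rw [Finset.sum_eq_single i0]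
    · simp [hi0]
    · intro b _ hb
      exact if_neg fun h => hb (hf.2 j b i0 (h.trans hi0.symm))
    · intro h; exact absurd (mem_univ _) h
  · exact if_neg fun h => hL i j (by rw [h]; exact hk)

theorem up {Av : ∀ n : ℕ, ListAssignment n → Prop} {d : ℕ}
    (h : ∀ n, 1 ≤ n → ∃ L : ListAssignment n, BoundedBy (n / d + 1) L ∧ ¬ Av n L) {β : ℝ}
    (hβ : ∀ n, 1 ≤ n → ∀ L : ListAssignment n, Sparse β L → Av n L) : β ≤ 1 / d := by
  by_contra hlt
  push Not at hlt
  obtain ⟨n, hn⟩ := exists_nat_gt (1 / (β - 1 / d))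
  have hpos : 0 < β - 1 / d := by linarith
  have hn1 : 1 ≤ n := by
    rcases Nat.eq_zero_or_pos n with h | h
    · subst h
      have : 0 < 1 / (β - 1 / d) := by positivity
      simp only [Nat.cast_zero] at hn
      linarith
    · exact h
  obtain ⟨L, ⟨h1, h2, h3⟩, hL⟩ := h n hn1
  have hbound : ((n / d + 1 : ℕ) : ℝ) ≤ β * n := by
    have e1 : ((n / d : ℕ) : ℝ) ≤ (n : ℝ) / d := Nat.cast_div_le
    have e2 : 1 < (n : ℝ) * (β - 1 / d) := by
      rwa [div_lt_iff₀ hpos] at hn
    have e3 : (n : ℝ) * (β - 1 / d) = β * n - n / d := by ring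
    push_cast
    linarith
  refine hL (hβ n hn1 L ⟨fun i j => ?_, fun i c => ?_, fun j c => ?_⟩)
  · exact le_trans (by exact_mod_cast h1 i j) hbound
  · exact le_trans (by exact_mod_cast h2 i c) hbound
  · exact le_trans (by exact_mod_cast h3 j c) hbound

theorem floor_bdd {n : ℕ} {β : ℝ} (hβ : 0 ≤ β) {L : ListAssignment n} (h : Sparse β L) :
    BoundedBy ⌊β * n⌋₊ L ∧ (⌊β * n⌋₊ : ℝ) ≤ β * n :=
  ⟨⟨fun i j => Nat.le_floor (h.1 i j), fun i c => Nat.le_floor (h.2.1 i c),
    fun j c => Nat.le_floor (h.2.2 j c)⟩, Nat.floor_le (by positivity)⟩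

/-- The sparsity threshold of the fractional relaxation of Haggkvist's problem lies between `2/11`
and `1/3`. -/
theorem result :
    (∀ n m : ℕ, 1 ≤ n → 11 * m ≤ 2 * n → ∀ L : ListAssignment n, BoundedBy m L →
      FracAvoidable L) ∧
    (∀ n : ℕ, 1 ≤ n → ∃ L : ListAssignment n, BoundedBy (n / 3 + 1) L ∧ ¬ FracAvoidable L) ∧
    2 / 11 ≤ betaFrac ∧ betaFrac ≤ 1 / 3 ∧ betaStar ≤ betaFrac := by
  have p3 : ∀ n m : ℕ, 1 ≤ n → 11 * m ≤ 2 * n → ∀ L : ListAssignment n, BoundedBy m L →
      FracAvoidable L := by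
    intro n m hn h L hL
    obtain ⟨g, g0, g1, g2, g3, g4⟩ := Pool.Agent.Y388.HG.frac11 hn h hL
    exact ⟨g, g0, g1, g2, g3, g4⟩
  have p4 : ∀ n : ℕ, 1 ≤ n → ∃ L : ListAssignment n, BoundedBy (n / 3 + 1) L ∧
      ¬ FracAvoidable L := by
    intro n hn
    obtain ⟨L, hL, hL2⟩ := Pool.Agent.Y388.HG.third n hn
    refine ⟨L, hL, ?_⟩
    rintro ⟨g, g0, g1, g2, g3, g4⟩
    exact hL2 ⟨g, g0, g1, g2, g3, g4⟩
  have u2 : ∀ β : ℝ, (∀ n, 1 ≤ n → ∀ L : ListAssignment n, Sparse β L → FracAvoidable L) →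
      β ≤ 1 / 3 := fun β h => by
    have := up (Av := fun n L => FracAvoidable L) (d := 3) p4 h
    norm_num at this ⊢
    exact this
  have b2 : BddAbove {β : ℝ | 0 ≤ β ∧ ∀ n : ℕ, 1 ≤ n → ∀ L : ListAssignment n, Sparse β L →
      FracAvoidable L} := ⟨1 / 3, fun β h => u2 β h.2⟩
  have n2 : 0 ≤ betaFrac := Real.sSup_nonneg fun β h => h.1
  refine ⟨p3, p4, ?_, ?_, ?_⟩
  · refine le_csSup b2 ⟨by norm_num, fun n hn L hL => ?_⟩
    obtain ⟨h1, h2⟩ := floor_bdd (by norm_num) hL
    refine p3 n _ hn ?_ L h1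
    have h5 : (11 : ℝ) * (⌊(2 / 11 : ℝ) * n⌋₊ : ℝ) ≤ 2 * n := by linarith
    exact_mod_cast h5
  · exact Real.sSup_le (fun β h => u2 β h.2) (by norm_num)
  · refine Real.sSup_le (fun β h => ?_) n2
    refine le_csSup b2 ⟨h.1, fun n hn L hL => ?_⟩
    obtain ⟨f, hf, hfL⟩ := h.2 n hn L hL
    refine ⟨_, fun i j k => ?_, ind_avoids hf hfL⟩
    split_ifs <;> norm_num

end Pool.Agent.Results.MP_ba4857_co.FractionalLatinSquares
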