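import Pool.Agent.Y388.HG.Neg

/-!
# Signed latin squares avoiding sparse list assignments: the threshold is exactly one quarter

A latin square avoiding `L` is a `0/1` array `g i j k` with all line sums `1` which vanishes at the
forbidden places. If arbitrary integer entries are allowed (signed latin squares), the analogue of
Haggkvist's constant is exactly `1/4`. So below `1/4` there is no linear or parity obstruction.
-/

namespace Pool.Agent.Results.MP_ba4857_co.SignedLatinSquares

open Finset

/-- A list assignment for `K_{n,n}`: the edge that joins the left vertex `i` to the right vertex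
`j` gets the set `L i j` of forbidden colours, a subset of the `n` colours `Fin n`. -/
abbrev ListAssignment (n : ℕ) : Type := Fin n → Fin n → Finset (Fin n)

/-- All lists have size at most `m`, and every colour is forbidden on at most `m` edges at every
(left or right) vertex. -/
def BoundedBy {n : ℕ} (m : ℕ) (L : ListAssignment n) : Prop :=
  (∀ i j, (L i j).card ≤ m) ∧
  (∀ i c, (univ.filter fun j => c ∈ L i j).card ≤ m) ∧
  (∀ j c, (univ.filter fun i => c ∈ L i j).card ≤ m)

/-- `L` is `β`-sparse: `|L(e)| ≤ β n` for every edge `e`, and every colour is forbidden on at most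
`β n` edges at every (left or right) vertex. -/
def Sparse {n : ℕ} (β : ℝ) (L : ListAssignment n) : Prop :=
  (∀ i j, ((L i j).card : ℝ) ≤ β * n) ∧
  (∀ i c, ((univ.filter fun j => c ∈ L i j).card : ℝ) ≤ β * n) ∧
  (∀ j c, ((univ.filter fun i => c ∈ L i j).card : ℝ) ≤ β * n)

/-- `f` is a proper edge colouring of `K_{n,n}` with the colours `Fin n`: two edges sharing their
left end, or their right end, get different colours. -/
def Proper {n : ℕ} (f : Fin n → Fin n → Fin n) : Prop :=
  (∀ i j j', f i j = f i j' → j = j') ∧ (∀ j i i', f i j = f i' j → i = i')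

/-- `L` is avoidable: some proper `n`-edge colouring gives no edge a colour forbidden on it. -/
def Avoidable {n : ℕ} (L : ListAssignment n) : Prop :=
  ∃ f : Fin n → Fin n → Fin n, Proper f ∧ ∀ i j, f i j ∉ L i j

/-- The array `g` has all line sums equal to `1` and vanishes at all forbidden places of `L`. -/
def Avoids {n : ℕ} {R : Type} [Semiring R] (L : ListAssignment n)
    (g : Fin n → Fin n → Fin n → R) : Prop :=
  (∀ i j, ∑ k, g i j k = 1) ∧ (∀ i k, ∑ j, g i j k = 1) ∧ (∀ j k, ∑ i, g i j k = 1) ∧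
    ∀ i j, ∀ k ∈ L i j, g i j k = 0

/-- Integral relaxation of avoidability: some signed latin square (integer entries of any sign)
avoids `L`. -/
def SignedAvoidable {n : ℕ} (L : ListAssignment n) : Prop :=
  ∃ g : Fin n → Fin n → Fin n → ℤ, Avoids L g

/-- Haggkvist's constant: the supremum of all `β ≥ 0` such that for every `n ≥ 1` every
`β`-sparse list assignment for `K_{n,n}` is avoidable. -/
noncomputable def betaStar : ℝ :=
  sSup {β : ℝ | 0 ≤ β ∧ ∀ n : ℕ, 1 ≤ n → ∀ L : ListAssignment n, Sparse β L → Avoidable L}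

/-- The same with signed latin squares instead of proper edge colourings. -/
noncomputable def betaSigned : ℝ :=
  sSup {β : ℝ | 0 ≤ β ∧ ∀ n : ℕ, 1 ≤ n → ∀ L : ListAssignment n, Sparse β L → SignedAvoidable L}

theorem ind_avoids {n : ℕ} {R : Type} [Semiring R] {L : ListAssignment n}
    {f : Fin n → Fin n → Fin n} (hf : Proper f) (hL : ∀ i j, f i j ∉ L i j) :
    Avoids L (fun i j k => if f i j = k then (1 : R) else 0) := by
  refine ⟨fun i j => by simp, fun i k => ?_, fun j k => ?_, fun i j k hk => ?_⟩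
  · have hb : Function.Surjective (f i) :=
      Finite.injective_iff_surjective.mp (fun j j' h => hf.1 i j j' h)
    obtain ⟨j0, hj0⟩ := hb k
    rw [Finset.sum_eq_single j0]
    · simp [hj0]
    · intro b _ hb
      exact if_neg fun h => hb (hf.1 i b j0 (h.trans hj0.symm))
    · intro h; exact absurd (mem_univ _) h
  · have hb : Function.Surjective (fun i => f i j) :=
      Finite.injective_iff_surjective.mp (fun i i' h => hf.2 j i i' h)
    obtain ⟨i0, hi0⟩ := hb k
    simp only at hi0
    rw [Finset.sum_eq_single i0]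
    · simp [hi0]
    · intro b _ hb
      exact if_neg fun h => hb (hf.2 j b i0 (h.trans hi0.symm))
    · intro h; exact absurd (mem_univ _) h
  · exact if_neg fun h => hL i j (by rw [h]; exact hk)

theorem up {Av : ∀ n : ℕ, ListAssignment n → Prop} {d : ℕ}
    (h : ∀ n, 1 ≤ n → ∃ L : ListAssignment n, BoundedBy (n / d + 1) L ∧ ¬ Av n L) {β : ℝ}
    (hβ : ∀ n, 1 ≤ n → ∀ L : ListAssignment n, Sparse β L → Av n L) : β ≤ 1 / d := by
  by_contra hlt
  push Not at hlt
  obtain ⟨n, hn⟩ := exists_nat_gt (1 / (β - 1 / d))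
  have hpos : 0 < β - 1 / d := by linarith
  have hn1 : 1 ≤ n := by
    rcases Nat.eq_zero_or_pos n with h | h
    · subst h
      have : 0 < 1 / (β - 1 / d) := by positivity
      simp only [Nat.cast_zero] at hn
      linarith
    · exact h
  obtain ⟨L, ⟨h1, h2, h3⟩, hL⟩ := h n hn1
  have hbound : ((n / d + 1 : ℕ) : ℝ) ≤ β * n := by
    have e1 : ((n / d : ℕ) : ℝ) ≤ (n : ℝ) / d := Nat.cast_div_le
    have e2 : 1 < (n : ℝ) * (β - 1 / d) := by
      rwa [div_lt_iff₀ hpos] at hn
    have e3 : (n : ℝ) * (β - 1 / d) = β * n - n / d := by ring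
    push_cast
    linarith
  refine hL (hβ n hn1 L ⟨fun i j => ?_, fun i c => ?_, fun j c => ?_⟩)
  · exact le_trans (by exact_mod_cast h1 i j) hbound
  · exact le_trans (by exact_mod_cast h2 i c) hbound
  · exact le_trans (by exact_mod_cast h3 j c) hbound

theorem floor_bdd {n : ℕ} {β : ℝ} (hβ : 0 ≤ β) {L : ListAssignment n} (h : Sparse β L) :
    BoundedBy ⌊β * n⌋₊ L ∧ (⌊β * n⌋₊ : ℝ) ≤ β * n :=
  ⟨⟨fun i j => Nat.le_floor (h.1 i j), fun i c => Nat.le_floor (h.2.1 i c),
    fun j c => Nat.le_floor (h.2.2 j c)⟩, Nat.floor_le (by positivity)⟩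

/-- The sparsity threshold of the integral relaxation of Haggkvist's problem is exactly `1/4`. -/
theorem result :
    (∀ n m : ℕ, 4 * m < n → ∀ L : ListAssignment n, BoundedBy m L → SignedAvoidable L) ∧
    (∀ n : ℕ, 1 ≤ n → ∃ L : ListAssignment n, BoundedBy (n / 4 + 1) L ∧ ¬ SignedAvoidable L) ∧
    betaSigned = 1 / 4 ∧ betaStar ≤ betaSigned := by
  have p1 : ∀ n m : ℕ, 4 * m < n → ∀ L : ListAssignment n, BoundedBy m L → SignedAvoidable L := by
    intro n m h L hL
    obtain ⟨g, g1, g2, g3, g4⟩ := Pool.Agent.Y388.HG.signed h hL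
    exact ⟨g, g1, g2, g3, g4⟩
  have p2 : ∀ n : ℕ, 1 ≤ n → ∃ L : ListAssignment n, BoundedBy (n / 4 + 1) L ∧
      ¬ SignedAvoidable L := by
    intro n hn
    obtain ⟨L, hL, hL2⟩ := Pool.Agent.Y388.HG.unavoidable n hn
    refine ⟨L, hL, ?_⟩
    rintro ⟨g, g1, g2, g3, g4⟩
    exact hL2 ⟨g, g1, g2, g3, g4⟩
  have u1 : ∀ β : ℝ, (∀ n, 1 ≤ n → ∀ L : ListAssignment n, Sparse β L → SignedAvoidable L) →
      β ≤ 1 / 4 := fun β h => by
    have := up (Av := fun n L => SignedAvoidable L) (d := 4) p2 h
    norm_num at this ⊢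
    exact this
  have b1 : BddAbove {β : ℝ | 0 ≤ β ∧ ∀ n : ℕ, 1 ≤ n → ∀ L : ListAssignment n, Sparse β L →
      SignedAvoidable L} := ⟨1 / 4, fun β h => u1 β h.2⟩
  have n1 : 0 ≤ betaSigned := Real.sSup_nonneg fun β h => h.1
  refine ⟨p1, p2, le_antisymm ?_ ?_, ?_⟩
  · exact Real.sSup_le (fun β h => u1 β h.2) (by norm_num)
  · refine le_of_forall_lt_imp_le_of_dense fun β hβ => ?_
    by_cases h0 : 0 ≤ β
    · refine le_csSup b1 ⟨h0, fun n hn L hL => ?_⟩
      obtain ⟨h1, h2⟩ := floor_bdd h0 hL
      refine p1 n _ ?_ L h1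
      have h3 : (0 : ℝ) < n := by exact_mod_cast hn
      have h4 : β * n < 1 / 4 * n := mul_lt_mul_of_pos_right hβ h3
      have h5 : (4 : ℝ) * (⌊β * n⌋₊ : ℝ) < n := by linarith
      exact_mod_cast h5
    · exact (not_le.1 h0).le.trans n1
  · refine Real.sSup_le (fun β h => ?_) n1
    refine le_csSup b1 ⟨h.1, fun n hn L hL => ?_⟩
    obtain ⟨f, hf, hfL⟩ := h.2 n hn L hL
    exact ⟨_, ind_avoids hf hfL⟩

end Pool.Agent.Results.MP_ba4857_co.SignedLatinSquares
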